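import Pool.Agent.Helper69.UX.StA

set_option autoImplicit false

/-!
# Project UX (MP_e12aa9_pr), module AZU: from a small probability to a large one
-/

namespace Pool.Agent.Helper58.UX

open Finset Filter Pool.Agent.Helper82.CN Pool.Agent.Helper11.PV Pool.Agent.Helper69.VX
  Pool.Agent.Helper69.UX

/-- the block of a bit -/
def blk {n : ℕ} (e : Sym2 (Fin n)) : Fin n :=
  Sym2.lift ⟨fun i j => max i j, fun i j => max_comm i j⟩ e

lemma ch_le_of {V : Type} {G : SimpleGraph V} {c : ℕ} (h : G.Colorable c) : ch G ≤ c := by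
  unfold ch
  exact_mod_cast ENat.toNat_le_of_le_natCast h.chromaticNumber_le

/-- changing one block changes the chromatic number by at most one -/
lemma ch_dif {n : ℕ} (j : Fin n) (ω ω' : Sym2 (Fin n) → Bool)
    (h : ∀ e, blk e ≠ j → ω e = ω' e) : ch (gr ω) - ch (gr ω') ≤ 1 := by
  obtain ⟨C⟩ := SimpleGraph.colorable_chromaticNumber_of_fintype (gr ω')
  have hc : (gr ω).Colorable ((gr ω').chromaticNumber.toNat + 1) := by
    refine ⟨SimpleGraph.Coloring.mk (fun v => if v = j then Fin.last _ else (C v).castSucc) ?_⟩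
    intro v w hvw
    by_cases hv : v = j
    · by_cases hw : w = j
      · exact absurd (hv.trans hw.symm) hvw.1
      · rw [if_pos hv, if_neg hw]
        exact (Fin.castSucc_lt_last _).ne'
    · by_cases hw : w = j
      · rw [if_neg hv, if_pos hw]
        exact (Fin.castSucc_lt_last _).ne
      · rw [if_neg hv, if_neg hw, Ne, Fin.castSucc_inj]
        refine C.valid ⟨hvw.1, ?_⟩
        rw [← h s(v, w)]
        · exact hvw.2
        · show max v w ≠ j
          rcases max_choice v w with h1 | h1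
          · rw [h1]; exact hv
          · rw [h1]; exact hw
  have h2 := ch_le_of hc
  rw [Nat.cast_add, Nat.cast_one] at h2
  have h3 : ch (gr ω') = ((gr ω').chromaticNumber.toNat : ℝ) := rfl
  linarith

/-- Markov for the exponential moment -/
lemma tail_bd (hM : StMcg) (p : ℝ) (n : ℕ) (h0 : 0 ≤ p) (h1 : p ≤ 1) (hn : 1 ≤ n) (σ u : ℝ)
    (hσ : σ ^ 2 = 1) (hu : 0 ≤ u) (A : (Sym2 (Fin n) → Bool) → Prop)
    (hA : ∀ ω, A ω → u ≤ σ * (ch (gr ω) - fn p n)) :
    PP p A ≤ Real.exp (-(u ^ 2 / (2 * n))) := by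
  have hn0 : (0 : ℝ) < n := by exact_mod_cast hn
  have key := hM p n (Sym2 (Fin n)) blk (fun ω => ch (gr ω)) (σ * (u / n)) h0 h1
    (fun j ω ω' h => ch_dif j ω ω' h)
  have hb : ∀ ω : Sym2 (Fin n) → Bool,
      (@ite ℝ (A ω) (Classical.propDecidable _) (1 : ℝ) 0) ≤
        Real.exp (-(u ^ 2 / n)) * Real.exp (σ * (u / n) * (ch (gr ω) - fn p n)) := by
    intro ω
    split_ifs with h
    · rw [← Real.exp_add]
      apply Real.one_le_exp
      have h2 := hA ω h
      have h3 : 0 ≤ u / n := by positivity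
      have h4 : u ^ 2 / n = u / n * u := by ring
      have h5 := mul_le_mul_of_nonneg_left h2 h3
      rw [h4]
      nlinarith
    · positivity
  have h6 : PP p A ≤ EE p (fun ω : Sym2 (Fin n) → Bool =>
      Real.exp (-(u ^ 2 / n)) * Real.exp (σ * (u / n) * (ch (gr ω) - fn p n))) :=
    EE_mono h0 h1 hb
  refine h6.trans ?_
  rw [EE_mul_left]
  refine (mul_le_mul_of_nonneg_left key (Real.exp_pos _).le).trans ?_
  rw [← Real.exp_add]
  apply le_of_eq
  congr 1
  rw [mul_pow, hσ]
  field_simp
  ring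

theorem hAZU : StMcg → StAZU := by
  intro hM p m n k h0 h1 hn hm hP
  have hn0 : (0 : ℝ) < n := by exact_mod_cast hn
  set r : ℝ := √(2 * n * m) with hr
  have hr0 : 0 ≤ r := Real.sqrt_nonneg _
  have hr2 : r ^ 2 = 2 * n * m := Real.sq_sqrt (by positivity)
  have hf : fn p n ≤ k + r := by
    by_contra hcon
    push Not at hcon
    have hu : r < fn p n - k := by linarith
    have h2 := tail_bd hM p n h0 h1 hn (-1) (fn p n - k) (by norm_num) (by linarith)
      (fun ω : Sym2 (Fin n) → Bool => ch (gr ω) ≤ k) (fun ω h => by linarith)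
    have h3 : Real.exp (-((fn p n - k) ^ 2 / (2 * n))) < Real.exp (-m) := by
      apply Real.exp_lt_exp.mpr
      apply neg_lt_neg
      rw [lt_div_iff₀ (by positivity)]
      nlinarith
    linarith
  have h4 := tail_bd hM p n h0 h1 hn 1 r (by norm_num) hr0
    (fun ω : Sym2 (Fin n) → Bool => (k : ℝ) + 2 * r < ch (gr ω)) (fun ω h => by linarith)
  refine h4.trans (le_of_eq ?_)
  congr 1
  rw [hr2]
  field_simp

end Pool.Agent.Helper58.UX
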