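import Pool.Agent.Helper69.UX.StC

/-!
# Project UX (MP_e12aa9_pr), module BUD: the budget inequality
-/

set_option autoImplicit false

namespace Pool.Agent.Helper58.UX

open Finset Filter Pool.Agent.Helper82.CN Pool.Agent.Helper11.PV Pool.Agent.Helper69.VX
open Pool.Agent.Helper69.UX

theorem bud_bb (p : ℝ) (hp : 0 < p) (hp2 : p ≤ 1 - 1 / Real.exp 2) :
    p < 1 ∧ 0 < bb p ∧ bb p ≤ 2 := by
  have he : 0 < Real.exp 2 := Real.exp_pos 2
  have h1 : 1 / Real.exp 2 ≤ 1 - p := by linarith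
  have h0 : 0 < 1 / Real.exp 2 := by positivity
  have hq : 0 < 1 - p := lt_of_lt_of_le h0 h1
  refine ⟨by linarith, ?_, ?_⟩
  · apply Real.log_pos
    rw [lt_div_iff₀ hq]
    linarith
  · have h2 : 1 / (1 - p) ≤ Real.exp 2 := by
      rw [div_le_iff₀ hq]
      rw [div_le_iff₀ he] at h1
      linarith
    calc bb p = Real.log (1 / (1 - p)) := rfl
      _ ≤ Real.log (Real.exp 2) := Real.log_le_log (by positivity) h2
      _ = 2 := Real.log_exp 2

theorem om_lc (p : ℝ) (hp0 : 0 < p) (hp1 : p < 1) (u : ℕ) :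
    om p u * om p (u + 2) ≤ om p (u + 1) ^ 2 := by
  unfold om
  have hq : 0 < 1 - p := by linarith
  have hq1 : 1 - p ≤ 1 := by linarith
  have hc1 : (u + 1).choose 2 = u.choose 2 + u := by
    rw [Nat.choose_succ_succ' u 1, Nat.choose_one_right]; ring
  have hc2 : (u + 2).choose 2 = u.choose 2 + u + (u + 1) := by
    rw [Nat.choose_succ_succ' (u + 1) 1, Nat.choose_one_right, hc1]; ring
  rw [hc1, hc2]
  have hf0 : (0 : ℝ) < (u.factorial : ℝ) := by exact_mod_cast Nat.factorial_pos u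
  have hf1 : ((u + 1).factorial : ℝ) = ((u : ℝ) + 1) * u.factorial := by
    rw [Nat.factorial_succ]; push_cast; ring
  have hf2 : ((u + 2).factorial : ℝ) = ((u : ℝ) + 2) * (((u : ℝ) + 1) * u.factorial) := by
    rw [Nat.factorial_succ, Nat.factorial_succ]; push_cast; ring
  rw [hf1, hf2, div_mul_div_comm, div_pow, ← pow_add]
  rw [div_le_div_iff₀ (by positivity) (by positivity)]
  have e1 : (1 - p) ^ (u.choose 2 + (u.choose 2 + u + (u + 1))) =
      ((1 - p) ^ (u.choose 2 + u)) ^ 2 * (1 - p) := by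
    rw [← pow_mul, ← pow_succ]; congr 1; ring
  rw [e1]
  have h1 : 0 < ((1 - p) ^ (u.choose 2 + u)) ^ 2 := by positivity
  have h2 : (1 - p) * (((u : ℝ) + 1) * (u.factorial : ℝ)) ^ 2 ≤
      (u.factorial : ℝ) * (((u : ℝ) + 2) * (((u : ℝ) + 1) * u.factorial)) := by
    have h3 : (1 - p) * (((u : ℝ) + 1) * (u.factorial : ℝ)) ^ 2 ≤
        1 * (((u : ℝ) + 1) * (u.factorial : ℝ)) ^ 2 := by gcongr
    have h4 : (u.factorial : ℝ) * (((u : ℝ) + 2) * (((u : ℝ) + 1) * u.factorial)) -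
        (((u : ℝ) + 1) * (u.factorial : ℝ)) ^ 2 = ((u : ℝ) + 1) * (u.factorial : ℝ) ^ 2 := by ring
    have h5 : 0 ≤ ((u : ℝ) + 1) * (u.factorial : ℝ) ^ 2 := by positivity
    linarith
  rw [mul_assoc]
  exact mul_le_mul_of_nonneg_left h2 h1.le

theorem om_pos (p : ℝ) (hp1 : p < 1) (u : ℕ) : 0 < om p u := by
  unfold om
  have hq : 0 < 1 - p := by linarith
  have hf0 : (0 : ℝ) < (u.factorial : ℝ) := by exact_mod_cast Nat.factorial_pos u
  positivity

/-- normalised profile -/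
noncomputable def aa (κ : ℕ → ℝ) (T : ℕ) (i : ℕ) : ℝ :=
  if i < T then κ (T - i) / KK T κ else 0

theorem sum_refl (T : ℕ) (κ f : ℕ → ℝ) (h0 : κ 0 = 0) :
    ∑ i ∈ range T, f i * κ (T - i) = ∑ u ∈ range (T + 1), f (T - u) * κ u := by
  rw [sum_range_succ' (fun u => f (T - u) * κ u) T]
  rw [h0, mul_zero, add_zero]
  rw [← sum_range_reflect (fun u => f (T - (u + 1)) * κ (u + 1)) T]
  apply sum_congr rfl
  intro i hi
  rw [mem_range] at hi
  have e1 : T - 1 - i + 1 = T - i := by omega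
  have e2 : T - (T - i) = i := by omega
  rw [e1, e2]

theorem aa_lc (p : ℝ) (hp0 : 0 < p) (hp1 : p < 1) (T : ℕ) (κ : ℕ → ℝ) (lam mu : ℝ)
    (hT : 1 ≤ T) (hK : 0 < KK T κ)
    (heq : ∀ u, 1 ≤ u → u ≤ T → κ u = Real.exp (lam + mu * u) * om p u)
    (h0 : κ 0 = 0) : LC (aa κ T) T := by
  refine ⟨hT, ?_, ?_, ?_, ?_⟩
  · intro i hi
    unfold aa
    rw [if_pos hi, heq (T - i) (by omega) (by omega)]
    have := om_pos p hp1 (T - i)
    positivity
  · intro i hi
    unfold aa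
    rw [if_neg (by omega)]
  · intro i
    by_cases hi : i + 2 < T
    · unfold aa
      rw [if_pos hi, if_pos (by omega : i < T), if_pos (by omega : i + 1 < T)]
      obtain ⟨u, hu⟩ : ∃ u, u = T - (i + 2) := ⟨_, rfl⟩
      have e1 : T - (i + 1) = u + 1 := by omega
      have e2 : T - i = u + 2 := by omega
      rw [← hu, e1, e2, heq u (by omega) (by omega), heq (u + 1) (by omega) (by omega),
        heq (u + 2) (by omega) (by omega)]
      rw [div_mul_div_comm, div_pow, ← pow_two]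
      apply div_le_div_of_nonneg_right _ (by positivity)
      have e3 : Real.exp (lam + mu * ((u + 2 : ℕ) : ℝ)) * om p (u + 2) *
          (Real.exp (lam + mu * (u : ℝ)) * om p u) =
          Real.exp (lam + mu * ((u + 1 : ℕ) : ℝ)) ^ 2 * (om p u * om p (u + 2)) := by
        have e4 : Real.exp (lam + mu * ((u + 1 : ℕ) : ℝ)) ^ 2 =
            Real.exp (lam + mu * ((u + 2 : ℕ) : ℝ)) * Real.exp (lam + mu * (u : ℝ)) := by
          rw [← Real.exp_add, pow_two, ← Real.exp_add]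
          congr 1
          push_cast
          ring
        rw [e4]
        ring
      rw [e3, mul_pow]
      exact mul_le_mul_of_nonneg_left (om_lc p hp0 hp1 u) (by positivity)
    · unfold aa
      rw [if_neg hi, mul_zero]
      positivity
  · have h1 : ∑ i ∈ range T, aa κ T i = ∑ i ∈ range T, (fun _ => 1 / KK T κ) i * κ (T - i) := by
      apply sum_congr rfl
      intro i hi
      rw [mem_range] at hi
      unfold aa
      rw [if_pos hi]
      ring
    rw [h1, sum_refl T κ _ h0, ← mul_sum]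
    change 1 / KK T κ * KK T κ = 1
    field_simp

theorem aa_ut (T : ℕ) (κ : ℕ → ℝ) (hK : 0 < KK T κ) (h0 : κ 0 = 0) (j : ℕ) :
    KK T κ * Ut (aa κ T) T j = ∑ u ∈ range (T + 1), κ u * ((T - j - u : ℕ) : ℝ) := by
  have h1 : KK T κ * Ut (aa κ T) T j =
      ∑ i ∈ range T, (fun i => ((i - j : ℕ) : ℝ)) i * κ (T - i) := by
    unfold Ut
    rw [mul_sum]
    apply sum_congr rfl
    intro i hi
    rw [mem_range] at hi
    unfold aa
    rw [if_pos hi]
    field_simp
  rw [h1, sum_refl T κ _ h0]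
  apply sum_congr rfl
  intro u _
  have e : T - u - j = T - j - u := by omega
  change ((T - u - j : ℕ) : ℝ) * κ u = _
  rw [e, mul_comm]

theorem ut_tail (L C : ℝ) (hL : 0 < L) (hC : 1 ≤ C) (T J : ℕ) (a : ℕ → ℝ)
    (ha : ∀ i, i < T → a i ≤ C ^ (i + 1) * Real.exp (-(L * (i : ℝ) ^ 2 / 2)))
    (hJ : 2 * Real.log (8 * C) / L ≤ J) : Ut a T J ≤ 2 * C * (1 / 2) ^ J := by
  unfold Ut
  have h1 : ∀ i ∈ range T, ((i - J : ℕ) : ℝ) * a i ≤ C * (1 / 2) ^ J * (1 / 2) ^ i := by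
    intro i hi
    rw [mem_range] at hi
    by_cases hij : i ≤ J
    · have e : i - J = 0 := by omega
      rw [e]
      simp only [Nat.cast_zero, zero_mul]
      positivity
    · push Not at hij
      have hJi : (J : ℝ) ≤ i := by exact_mod_cast hij.le
      have e1 : Real.exp (-(L * (i : ℝ) ^ 2 / 2)) ≤ (1 / (8 * C)) ^ i := by
        have e2 : (1 / (8 * C)) ^ i = Real.exp (-(i * Real.log (8 * C))) := by
          rw [Real.exp_neg, ← Real.log_pow, Real.exp_log (by positivity), one_div, inv_pow]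
        rw [e2]
        apply Real.exp_le_exp.mpr
        have e3 : Real.log (8 * C) ≤ L * i / 2 := by
          have e4 : 2 * Real.log (8 * C) / L ≤ i := le_trans hJ hJi
          rw [div_le_iff₀ hL] at e4
          linarith
        have hi0 : (0 : ℝ) ≤ i := Nat.cast_nonneg i
        have e5 := mul_le_mul_of_nonneg_left e3 hi0
        nlinarith
      have e6 : ((i - J : ℕ) : ℝ) ≤ 2 ^ i := by
        have : i - J ≤ 2 ^ i := le_trans (Nat.sub_le i J) (Nat.lt_two_pow_self).le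
        exact_mod_cast this
      have e7 : a i ≤ C ^ (i + 1) * (1 / (8 * C)) ^ i :=
        le_trans (ha i hi) (mul_le_mul_of_nonneg_left e1 (by positivity))
      have e8 : ((i - J : ℕ) : ℝ) * a i ≤ 2 ^ i * (C ^ (i + 1) * (1 / (8 * C)) ^ i) := by
        apply le_trans (mul_le_mul_of_nonneg_left e7 (Nat.cast_nonneg _))
        exact mul_le_mul_of_nonneg_right e6 (by positivity)
      have e9 : (2 : ℝ) ^ i * (C ^ (i + 1) * (1 / (8 * C)) ^ i) = C * ((1 / 2) ^ i * (1 / 2) ^ i) := by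
        have hC0 : C ≠ 0 := by positivity
        have : (1 / (8 * C)) ^ i = (1 / 2) ^ i * (1 / 2) ^ i * (1 / 2) ^ i * (1 / C) ^ i := by
          rw [← mul_pow, ← mul_pow, ← mul_pow]
          congr 1
          field_simp
          norm_num
        rw [this, pow_succ]
        have h2 : (2 : ℝ) ^ i * (1 / 2) ^ i = 1 := by
          rw [← mul_pow]; norm_num
        have h3 : C ^ i * (1 / C) ^ i = 1 := by
          rw [← mul_pow, mul_one_div_cancel hC0, one_pow]
        calc (2 : ℝ) ^ i * (C ^ i * C * ((1 / 2) ^ i * (1 / 2) ^ i * (1 / 2) ^ i * (1 / C) ^ i)) =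
            (2 ^ i * (1 / 2) ^ i) * (C ^ i * (1 / C) ^ i) * (C * ((1 / 2) ^ i * (1 / 2) ^ i)) := by ring
          _ = _ := by rw [h2, h3]; ring
      have e10 : ((1 : ℝ) / 2) ^ i ≤ (1 / 2) ^ J :=
        pow_le_pow_of_le_one (by norm_num) (by norm_num) hij.le
      calc ((i - J : ℕ) : ℝ) * a i ≤ C * ((1 / 2) ^ i * (1 / 2) ^ i) := by rw [← e9]; exact e8
        _ ≤ C * ((1 / 2) ^ J * (1 / 2) ^ i) := by gcongr
        _ = _ := by ring
  refine le_trans (sum_le_sum h1) ?_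
  rw [← mul_sum]
  have h2 : ∑ i ∈ range T, ((1 : ℝ) / 2) ^ i ≤ 2 := sum_geometric_two_le T
  have h3 : 0 ≤ C * (1 / 2) ^ J := by positivity
  nlinarith

theorem bud_mem {V : Type} [Fintype V] (P : Finset (Finset V)) (hP : P ∈ Pt V) :
    (∀ A ∈ P, A.Nonempty) ∧ (∀ A ∈ P, ∀ B ∈ P, A ≠ B → Disjoint A B) ∧
      ∀ v : V, ∃ A ∈ P, v ∈ A := by
  unfold Pt at hP
  simpa only [mem_filter, mem_univ, true_and] using hP

theorem sum_card (n : ℕ) (P : Finset (Finset (Fin n))) (hP : P ∈ Pt (Fin n)) :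
    ∑ A ∈ P, (A.card : ℝ) = n := by
  classical
  obtain ⟨-, hd, hc⟩ := bud_mem P hP
  have h1 : P.biUnion id = univ := by
    apply eq_univ_of_forall
    intro v
    obtain ⟨A, hA, hv⟩ := hc v
    exact mem_biUnion.mpr ⟨A, hA, hv⟩
  have h2 : (P.biUnion id).card = ∑ A ∈ P, A.card := by
    rw [card_biUnion]
    · rfl
    · intro A hA B hB hAB
      exact hd A hA B hB hAB
  rw [h1, card_univ, Fintype.card_fin] at h2
  rw [← Nat.cast_sum, ← h2]

theorem bud_comb (n T J j : ℕ) (P I : Finset (Finset (Fin n))) (th DJ Dj e : ℝ)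
    (hP : P ∈ Pt (Fin n)) (hIP : I ⊆ P)
    (h1 : ∑ A ∈ P, ((T - J - A.card : ℕ) : ℝ) ≤ DJ + e)
    (h2 : ∑ A ∈ P, ((T - j - A.card : ℕ) : ℝ) ≤ Dj + e) :
    th * I.card + T * P.card - n - DJ - Dj - 2 * e - (P.card - I.card) * j ≤
      ∑ A ∈ I, (th + ((min (T - A.card) J : ℕ) : ℝ)) := by
  classical
  have a1 : ∑ A ∈ I, (th + ((min (T - A.card) J : ℕ) : ℝ)) =
      th * I.card + ∑ A ∈ I, ((min (T - A.card) J : ℕ) : ℝ) := by
    rw [sum_add_distrib, sum_const, nsmul_eq_mul]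
    ring
  have a2 : ∑ A ∈ P \ I, ((min (T - A.card) J : ℕ) : ℝ) +
      ∑ A ∈ I, ((min (T - A.card) J : ℕ) : ℝ) = ∑ A ∈ P, ((min (T - A.card) J : ℕ) : ℝ) :=
    sum_sdiff hIP
  have a3 : T * P.card - n - ∑ A ∈ P, ((T - J - A.card : ℕ) : ℝ) ≤
      ∑ A ∈ P, ((min (T - A.card) J : ℕ) : ℝ) := by
    have b1 : ∑ A ∈ P, ((T : ℝ) - A.card - ((T - J - A.card : ℕ) : ℝ)) ≤
        ∑ A ∈ P, ((min (T - A.card) J : ℕ) : ℝ) := by
      apply sum_le_sum
      intro A _
      have b2 : T ≤ A.card + (T - J - A.card) + min (T - A.card) J := by omega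
      have b3 : (T : ℝ) ≤ A.card + ((T - J - A.card : ℕ) : ℝ) + ((min (T - A.card) J : ℕ) : ℝ) := by
        exact_mod_cast b2
      linarith
    rw [sum_sub_distrib, sum_sub_distrib, sum_card n P hP, sum_const, nsmul_eq_mul] at b1
    linarith
  have a4 : ∑ A ∈ P \ I, ((min (T - A.card) J : ℕ) : ℝ) ≤
      (P.card - I.card) * j + ∑ A ∈ P, ((T - j - A.card : ℕ) : ℝ) := by
    have b1 : ∑ A ∈ P \ I, ((min (T - A.card) J : ℕ) : ℝ) ≤
        ∑ A ∈ P \ I, ((j : ℝ) + ((T - j - A.card : ℕ) : ℝ)) := by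
      apply sum_le_sum
      intro A _
      have b2 : min (T - A.card) J ≤ j + (T - j - A.card) := by omega
      exact_mod_cast b2
    rw [sum_add_distrib, sum_const, nsmul_eq_mul] at b1
    have b3 : ((P \ I).card : ℝ) = P.card - I.card := by
      rw [card_sdiff_of_subset hIP, Nat.cast_sub (card_le_card hIP)]
    rw [b3] at b1
    have b4 : ∑ A ∈ P \ I, ((T - j - A.card : ℕ) : ℝ) ≤ ∑ A ∈ P, ((T - j - A.card : ℕ) : ℝ) :=
      sum_le_sum_of_subset_of_nonneg sdiff_subset (fun A _ _ => Nat.cast_nonneg _)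
    linarith
  rw [a1]
  linarith

/-- the constants -/
theorem bud_arith (L H Ut0 Utj UtJ K k m n T j th s δ x y g ε₀ ε₁ S : ℝ)
    (hL : 0 < L) (hL2 : L ≤ 2) (hg0 : 0 < g) (hδ0 : 0 < δ) (hK : 0 < K)
    (hg : g = 1 / L * (1 / (12 * (2 / L + 1) ^ 2 + 1)) * (ε₀ * ε₁))
    (hδ : δ = g / (2 * (5 + 2 / L + g)))
    (he0 : 0 < ε₀) (he1 : 0 < ε₁)
    (hx : ε₁ ≤ x) (hy : ε₀ ≤ y) (hxy : y = 1 - x) (hk : 0 < k) (hm : m = k * x)
    (hH : H = th + Ut0) (hHL : |H - 2 / L| ≤ δ)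
    (hj : 0 ≤ j) (hjT : j ≤ T) (hth0 : 0 ≤ th) (hth1 : th ≤ 1) (hUJ : UtJ ≤ δ)
    (hn : n = T * K - K * Ut0) (hk1 : K - s ≤ k) (hk2 : k ≤ K + s) (hs0 : 0 ≤ s)
    (hs : (T + 1) * s ≤ δ * K)
    (hM : (th + j) * y + Utj ≤ H * (y + y * Real.log (1 / y) / (1 + 1 / (12 * H ^ 2))))
    (hS : th * m + T * k - n - K * UtJ - K * Utj - 2 * (δ * K) - (k - m) * j ≤ S) :
    k * (2 / L * (x - ph x) + g / 2) ≤ S := by
  have hA : 1 ≤ 2 / L := by rw [le_div_iff₀ hL]; linarith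
  have hx0 : 0 < x := lt_of_lt_of_le he1 hx
  have hy0 : 0 < y := lt_of_lt_of_le he0 hy
  have hx1 : x < 1 := by linarith
  -- the function `ph`
  have hph : ph x = y * Real.log (1 / y) := by unfold ph; rw [hxy]
  have hph1 : ph x ≤ x := by
    rw [hph]
    have h1 := Real.log_le_sub_one_of_pos (show 0 < 1 / y by positivity)
    have h2 := mul_le_mul_of_nonneg_left h1 hy0.le
    have h3 : y * (1 / y - 1) = x := by field_simp; linarith
    linarith
  have hph0 : ε₀ * ε₁ ≤ ph x := by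
    rw [hph]
    have h1 := Real.log_le_sub_one_of_pos hy0
    have h2 : Real.log (1 / y) = -Real.log y := by rw [one_div, Real.log_inv]
    have h3 : x ≤ Real.log (1 / y) := by rw [h2]; linarith
    exact mul_le_mul hy (le_trans hx h3) he1.le hy0.le
  have hph00 : 0 < ph x := lt_of_lt_of_le (by positivity) hph0
  -- the constants
  have hden : 0 < 5 + 2 / L + g := by positivity
  have hδg : δ * (5 + 2 / L + g) = g / 2 := by rw [hδ]; field_simp
  have hδ1 : δ ≤ 1 / 2 := by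
    rw [hδ, div_le_iff₀ (by positivity)]
    have : 0 < 2 / L := by positivity
    linarith
  have hHu : H ≤ 2 / L + 1 := by have := (abs_le.mp hHL).2; linarith
  have hHl : 1 / L ≤ H := by
    have h1 := (abs_le.mp hHL).1
    have h2 : 2 / L = 1 / L + 1 / L := by ring
    have h3 : 1 / 2 ≤ 1 / L := by
      apply one_div_le_one_div_of_le hL hL2
    linarith
  have hH0 : 0 < H := lt_of_lt_of_le (by positivity) hHl
  -- `1/(1 + 1/(12 H^2)) = 1 - η`
  obtain ⟨η, hη⟩ : ∃ η, η = 1 / (12 * H ^ 2 + 1) := ⟨_, rfl⟩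
  have hη1 : y * Real.log (1 / y) / (1 + 1 / (12 * H ^ 2)) = (1 - η) * ph x := by
    rw [hph, hη]
    field_simp
    ring
  have hη2 : 1 / (12 * (2 / L + 1) ^ 2 + 1) ≤ η := by
    rw [hη]
    apply one_div_le_one_div_of_le (by positivity)
    have : H ^ 2 ≤ (2 / L + 1) ^ 2 := by gcongr
    linarith
  have hgH : g ≤ H * (η * ph x) := by
    rw [hg, mul_assoc]
    apply mul_le_mul hHl _ (by positivity) hH0.le
    exact mul_le_mul hη2 hph0 (by positivity) (le_trans (by positivity) hη2)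
  have hHx : 2 / L * (x - ph x) - δ ≤ H * (x - ph x) := by
    have h1 := (abs_le.mp hHL).1
    have h2 : 0 ≤ x - ph x := by linarith
    have h3 : x - ph x ≤ 1 := by linarith
    nlinarith
  have hMx : 2 / L * (x - ph x) - δ + g ≤ H - ((th + j) * y + Utj) := by
    rw [hη1] at hM
    have h1 : H - H * (y + (1 - η) * ph x) = H * (x - ph x) + H * (η * ph x) := by
      rw [hxy]; ring
    linarith
  -- the main term
  have hq0 : 0 ≤ (th + T) - y * (th + j) := by
    have h1 : y * (th + j) ≤ 1 * (th + j) := by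
      apply mul_le_mul_of_nonneg_right (by linarith) (by linarith)
    linarith
  have hq1 : (th + T) - y * (th + j) ≤ T + 1 := by
    have h1 : 0 ≤ y * (th + j) := by positivity
    linarith
  have hkq : K * ((th + T) - y * (th + j)) - δ * K ≤ k * ((th + T) - y * (th + j)) := by
    have h1 := mul_le_mul_of_nonneg_right hk1 hq0
    have h2 := mul_le_mul_of_nonneg_left hq1 hs0
    nlinarith
  have hS1 : K * (2 / L * (x - ph x) + g - 5 * δ) ≤ S := by
    have h1 : th * m + T * k - (k - m) * j = k * ((th + T) - y * (th + j)) := by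
      rw [hm, hxy]; ring
    have h2 : K * UtJ ≤ K * δ := mul_le_mul_of_nonneg_left hUJ hK.le
    have h3 := mul_le_mul_of_nonneg_left hMx hK.le
    have h4 : K * (H - ((th + j) * y + Utj)) =
        K * ((th + T) - y * (th + j)) - n - K * Utj := by
      rw [hn, hH]; ring
    have h5 : K * (2 / L * (x - ph x) + g - 5 * δ) =
        K * (2 / L * (x - ph x) - δ + g) - 4 * (δ * K) := by ring
    rw [h5]
    linarith
  refine le_trans ?_ hS1
  have hb0 : 0 ≤ 2 / L * (x - ph x) + g - 5 * δ := by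
    have h1 : 0 ≤ 2 / L * (x - ph x) := by
      apply mul_nonneg (by positivity); linarith
    have h2 : 0 ≤ δ * (2 / L + g) := by positivity
    nlinarith
  have hb1 : 2 / L * (x - ph x) + g - 5 * δ ≤ 2 / L + g := by
    have h1 : 2 / L * (x - ph x) ≤ 2 / L * 1 := by
      apply mul_le_mul_of_nonneg_left _ (by positivity); linarith
    linarith
  have hKk : k * (1 - δ) ≤ K := by
    by_cases h : k ≤ K
    · have : 0 ≤ k * δ := by positivity
      linarith
    · push Not at h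
      have hT0 : 0 ≤ T := le_trans hj hjT
      have h1 : s ≤ (T + 1) * s := by nlinarith
      have h2 : δ * K ≤ δ * k := mul_le_mul_of_nonneg_left h.le hδ0.le
      linarith
  have h1 := mul_le_mul_of_nonneg_right hKk hb0
  refine le_trans ?_ h1
  have h2 : k * (1 - δ) * (2 / L * (x - ph x) + g - 5 * δ) -
      k * (2 / L * (x - ph x) + g / 2) =
      k * (g / 2 - 5 * δ - δ * (2 / L * (x - ph x) + g - 5 * δ)) := by ring
  have h3 : 0 ≤ g / 2 - 5 * δ - δ * (2 / L * (x - ph x) + g - 5 * δ) := by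
    have h4 := mul_le_mul_of_nonneg_left hb1 hδ0.le
    nlinarith
  have h5 := mul_nonneg hk.le h3
  linarith

theorem hBUD : StMGX → StSIZ → StBUD := by
  intro hMGX hSIZ p ε C ε₀ ε₁ hp hp2 hε hε2 hC he0 he0' he1 he1'
  obtain ⟨hp1, hL, hL2⟩ := bud_bb p hp hp2
  obtain ⟨g, hg⟩ : ∃ g : ℝ, g = 1 / bb p * (1 / (12 * (2 / bb p + 1) ^ 2 + 1)) * (ε₀ * ε₁) :=
    ⟨_, rfl⟩
  obtain ⟨δ, hδ⟩ : ∃ δ : ℝ, δ = g / (2 * (5 + 2 / bb p + g)) := ⟨_, rfl⟩
  have hg0 : 0 < g := by rw [hg]; positivity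
  have hδ0 : 0 < δ := by rw [hδ]; positivity
  obtain ⟨J, hJ1, hJ2, hJ3, hJ4⟩ : ∃ J : ℕ, 1 ≤ J ∧ (2 / bb p + 1) / ε₀ ≤ (J : ℝ) ∧
      2 * Real.log (8 * C) / bb p ≤ (J : ℝ) ∧ 2 * C * (1 / 2) ^ J ≤ δ := by
    have t1 : ∀ᶠ J : ℕ in atTop, 1 ≤ J := eventually_ge_atTop 1
    have t2 : ∀ᶠ J : ℕ in atTop, (2 / bb p + 1) / ε₀ ≤ (J : ℝ) :=
      tendsto_natCast_atTop_atTop.eventually_ge_atTop _
    have t3 : ∀ᶠ J : ℕ in atTop, 2 * Real.log (8 * C) / bb p ≤ (J : ℝ) :=
      tendsto_natCast_atTop_atTop.eventually_ge_atTop _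
    have t4 : ∀ᶠ J : ℕ in atTop, 2 * C * (1 / 2) ^ J ≤ δ := by
      have h1 : Tendsto (fun J : ℕ => 2 * C * ((1 : ℝ) / 2) ^ J) atTop (nhds (2 * C * 0)) :=
        (tendsto_pow_atTop_nhds_zero_of_lt_one (by norm_num) (by norm_num)).const_mul _
      rw [mul_zero] at h1
      exact (h1.eventually (gt_mem_nhds hδ0)).mono fun J hJ => hJ.le
    exact (t1.and (t2.and (t3.and t4))).exists
  have hε3 : 0 < ε / 2 := by linarith
  obtain ⟨n0, hn0⟩ := hSIZ p ε (ε / 2) J hp hp2 hε hε2 hε3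
  obtain ⟨n1, hn1⟩ : ∃ n1 : ℕ, ∀ n : ℕ, n1 ≤ n → 2 / δ ≤ (n : ℝ) ^ (ε / 2) := by
    have h1 : Tendsto (fun n : ℕ => (n : ℝ) ^ (ε / 2)) atTop atTop :=
      (tendsto_rpow_atTop hε3).comp tendsto_natCast_atTop_atTop
    exact eventually_atTop.mp (h1.eventually_ge_atTop (2 / δ))
  refine ⟨J, δ, g / 2, hJ1, hδ0, by positivity, max (max n0 n1) 1, ?_⟩
  intro C₀ s n T th κ lam mu P I hn hW hPar hGood hs0 hs hIP hI1 hI2
  have hnn0 : n0 ≤ n := le_trans (le_trans (le_max_left _ _) (le_max_left _ _)) hn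
  have hnn1 : n1 ≤ n := le_trans (le_trans (le_max_right _ _) (le_max_left _ _)) hn
  have hn1' : 1 ≤ n := le_trans (le_max_right _ _) hn
  have hnpos : (0 : ℝ) < n := by exact_mod_cast hn1'
  have hSz := hn0 n T th hnn0 hW
  have hT4 := hSz.t4
  have hT1 : 1 ≤ T := by omega
  have hT0 : (0 : ℝ) < T := by exact_mod_cast hT1
  have hT1' : (1 : ℝ) ≤ T := by exact_mod_cast hT1
  have hκ0 : κ 0 = 0 := hPar.zer 0 (Or.inl rfl)
  have hκnn : ∀ u, 0 ≤ κ u := by
    intro u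
    by_cases h : u = 0 ∨ T < u
    · rw [hPar.zer u h]
    · push Not at h
      rw [hPar.eq u (by omega) (by omega)]
      have := om_pos p hp1 u
      positivity
  have hKT : (n : ℝ) ≤ T * KK T κ := by
    rw [← hPar.sum]
    unfold KK
    rw [mul_sum]
    apply sum_le_sum
    intro u hu
    rw [mem_range] at hu
    apply mul_le_mul_of_nonneg_right _ (hκnn u)
    exact_mod_cast (by omega : u ≤ T)
  have hK : 0 < KK T κ := by
    by_contra h
    push Not at h
    have : (T : ℝ) * KK T κ ≤ 0 := mul_nonpos_of_nonneg_of_nonpos hT0.le h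
    linarith
  -- slack
  have hsl : ((T : ℝ) + 1) * s ≤ δ * KK T κ := by
    have a1 : (T : ℝ) ^ 2 ≤ (n : ℝ) ^ (ε / 2) :=
      le_trans (pow_le_pow_right₀ hT1' (by norm_num)) hSz.t3
    have a2 : (n : ℝ) ^ ε = (n : ℝ) ^ (ε / 2) * (n : ℝ) ^ (ε / 2) := by
      rw [← Real.rpow_add hnpos]; congr 1; ring
    have a3 : 2 * (T : ℝ) ^ 2 ≤ δ * (n : ℝ) ^ ε := by
      have b1 := hn1 n hnn1
      rw [div_le_iff₀ hδ0] at b1
      have b2 : 0 ≤ (n : ℝ) ^ (ε / 2) := Real.rpow_nonneg hnpos.le _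
      have b3 := mul_le_mul b1 a1 (by positivity) (by positivity)
      rw [a2]
      nlinarith
    have a4 : (n : ℝ) ^ (1 - ε) * (n : ℝ) ^ ε = n := by
      rw [← Real.rpow_add hnpos]; simp
    have a5 : 0 ≤ (n : ℝ) ^ (1 - ε) := Real.rpow_nonneg hnpos.le _
    have a6 : T * ((T + 1) * s) ≤ T * (δ * KK T κ) := by
      have c1 : T * (((T : ℝ) + 1) * s) ≤ 2 * (T : ℝ) ^ 2 * (n : ℝ) ^ (1 - ε) := by
        have c2 : (T : ℝ) * (T + 1) ≤ 2 * (T : ℝ) ^ 2 := by nlinarith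
        calc (T : ℝ) * ((T + 1) * s) = (T : ℝ) * (T + 1) * s := by ring
          _ ≤ 2 * (T : ℝ) ^ 2 * (n : ℝ) ^ (1 - ε) :=
            mul_le_mul c2 hs hs0 (by positivity)
      have c3 := mul_le_mul_of_nonneg_right a3 a5
      have c4 : δ * (n : ℝ) ^ ε * (n : ℝ) ^ (1 - ε) = δ * n := by
        rw [mul_assoc, mul_comm ((n : ℝ) ^ ε), a4]
      have c5 := mul_le_mul_of_nonneg_left hKT hδ0.le
      calc (T : ℝ) * ((T + 1) * s) ≤ 2 * (T : ℝ) ^ 2 * (n : ℝ) ^ (1 - ε) := c1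
        _ ≤ δ * (n : ℝ) ^ ε * (n : ℝ) ^ (1 - ε) := c3
        _ = δ * n := c4
        _ ≤ δ * (T * KK T κ) := c5
        _ = T * (δ * KK T κ) := by ring
    exact le_of_mul_le_mul_left a6 hT0
  -- the profile
  have hLC := aa_lc p hp hp1 T κ lam mu hT1 hK hPar.eq hκ0
  have hU := aa_ut T κ hK hκ0
  have hsum : ∑ u ∈ range (T + 1), ((T : ℝ) - u) * κ u = T * KK T κ - n := by
    rw [← hPar.sum]
    unfold KK
    rw [mul_sum, ← sum_sub_distrib]
    apply sum_congr rfl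
    intro u _
    ring
  have hU0 : KK T κ * Ut (aa κ T) T 0 = T * KK T κ - n := by
    rw [hU 0, ← hsum]
    apply sum_congr rfl
    intro u hu
    rw [mem_range] at hu
    rw [Nat.sub_zero, Nat.cast_sub (by omega), mul_comm]
  obtain ⟨H, hH⟩ : ∃ H : ℝ, H = th + Ut (aa κ T) T 0 := ⟨_, rfl⟩
  have hHL : |H - 2 / bb p| ≤ δ := by
    have h1 := hPar.mean
    rw [hsum, ← hU0] at h1
    have h2 : KK T κ * Ut (aa κ T) T 0 - (2 / bb p - th) * KK T κ = KK T κ * (H - 2 / bb p) := by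
      rw [hH]; ring
    rw [h2, abs_mul, abs_of_pos hK, mul_comm δ] at h1
    exact le_of_mul_le_mul_left h1 hK
  -- sizes of `P` and `I`
  have hs' : s ≤ ((T : ℝ) + 1) * s := by nlinarith
  have hA : 1 ≤ 2 / bb p := by rw [le_div_iff₀ hL]; linarith
  have hδ1 : δ ≤ 1 / 2 := by
    rw [hδ, div_le_iff₀ (by positivity)]
    linarith
  have hk : (0 : ℝ) < P.card := by
    have h1 := hGood.num1
    have h2 : δ * KK T κ ≤ 1 / 2 * KK T κ := mul_le_mul_of_nonneg_right hδ1 hK.le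
    linarith
  obtain ⟨x, hx⟩ : ∃ x : ℝ, x = (I.card : ℝ) / P.card := ⟨_, rfl⟩
  have hm : (I.card : ℝ) = P.card * x := by rw [hx]; field_simp
  have hx1 : ε₁ ≤ x := by rw [hx, le_div_iff₀ hk]; exact hI1
  have hx2 : x ≤ 1 - ε₀ := by rw [hx, div_le_iff₀ hk]; exact hI2
  have hy : ε₀ ≤ 1 - x := by linarith
  have hy0 : 0 < 1 - x := by linarith
  obtain ⟨j, hj1, hj2⟩ := hMGX (aa κ T) T th H hLC hW.2.1 hH (1 - x) hy0 (by linarith)
  have hHu : H ≤ 2 / bb p + 1 := by have := (abs_le.mp hHL).2; linarith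
  have hjJ : j ≤ J := by
    have h1 : H / (1 - x) ≤ (2 / bb p + 1) / ε₀ := by
      apply div_le_div₀ (by positivity) hHu he0 hy
    exact_mod_cast le_trans hj1 (le_trans h1 hJ2)
  have hUJ : Ut (aa κ T) T J ≤ δ := by
    refine le_trans (ut_tail (bb p) C hL hC T J (aa κ T) ?_ hJ3) hJ4
    intro i hi
    have h1 := hPar.tail (T - i) (by omega)
    have e : T - (T - i) = i := by omega
    rw [e] at h1
    unfold aa
    rw [if_pos hi, div_le_iff₀ hK]
    calc κ (T - i) ≤ _ := h1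
      _ = _ := by ring
  have hcomb := bud_comb n T J j P I th (KK T κ * Ut (aa κ T) T J) (KK T κ * Ut (aa κ T) T j)
    (δ * KK T κ) hGood.part hIP (by rw [hU J]; exact hGood.hinge J le_rfl)
    (by rw [hU j]; exact hGood.hinge j hjJ)
  have hth1 : th ≤ 1 := by have := hW.2.2; linarith
  have hth0 : 0 ≤ th := by have := hW.2.1; linarith
  rw [← hx]
  exact bud_arith (bb p) H (Ut (aa κ T) T 0) (Ut (aa κ T) T j) (Ut (aa κ T) T J) (KK T κ)
    P.card I.card n T j th s δ x (1 - x) g ε₀ ε₁ _ hL hL2 hg0 hδ0 hK hg hδ he0 he1 hx1 hy rfl hk hm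
    hH hHL (Nat.cast_nonneg j) (by exact_mod_cast (by omega : j ≤ T)) hth0 hth1 hUJ
    (by linarith) hGood.num1 hGood.num2 hs0 hsl hj2 hcomb

end Pool.Agent.Helper58.UX
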