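import Pool.Agent.Helper69.UX.StE

/-!
# Project UX (MP_e12aa9_pr), module UXD: the density statement
-/

set_option autoImplicit false

namespace Pool.Agent.Helper58.UX

open Finset Filter Pool.Agent.Helper82.CN Pool.Agent.Helper11.PV Pool.Agent.Helper69.VX
open Pool.Agent.Helper69.UX

theorem uxd_bb (p : ℝ) (hp : 0 < p) (hp2 : p ≤ 1 - 1 / Real.exp 2) :
    0 < bb p ∧ bb p ≤ 2 := by
  have he : 0 < Real.exp 2 := Real.exp_pos 2
  have h1 : 1 / Real.exp 2 ≤ 1 - p := by linarith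
  have h0 : 0 < 1 / Real.exp 2 := by positivity
  have hq : 0 < 1 - p := lt_of_lt_of_le h0 h1
  refine ⟨?_, ?_⟩
  · apply Real.log_pos
    rw [lt_div_iff₀ hq]
    linarith
  · have h2 : 1 / (1 - p) ≤ Real.exp 2 := by
      rw [div_le_iff₀ hq]
      rw [div_le_iff₀ he] at h1
      linarith
    calc bb p = Real.log (1 / (1 - p)) := rfl
      _ ≤ Real.log (Real.exp 2) := Real.log_le_log (by positivity) h2
      _ = 2 := Real.log_exp 2

/-- differences of `α₀` -/
theorem uxd_diff (p m n : ℝ) (hL : 0 < bb p) (hm : 0 < m) (hmn : m ≤ n) (h2 : 2 ≤ Real.log m) :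
    a0 p n - a0 p m ≤ 2 / bb p * (Real.log n - Real.log m) ∧
    1 / bb p * (Real.log n - Real.log m) ≤ a0 p n - a0 p m := by
  have hn : 0 < n := lt_of_lt_of_le hm hmn
  have hl : Real.log m ≤ Real.log n := Real.log_le_log hm hmn
  have hm0 : 0 < Real.log m := by linarith
  have hn0 : 0 < Real.log n := by linarith
  have e1 : Real.log (Real.log m / bb p) = Real.log (Real.log m) - Real.log (bb p) :=
    Real.log_div hm0.ne' hL.ne'
  have e2 : Real.log (Real.log n / bb p) = Real.log (Real.log n) - Real.log (bb p) :=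
    Real.log_div hn0.ne' hL.ne'
  have e3 : a0 p n - a0 p m = 2 / bb p * ((Real.log n - Real.log m) -
      (Real.log (Real.log n) - Real.log (Real.log m))) := by
    change al p n - al p m = _
    unfold Pool.Agent.Helper82.CN.al
    rw [e1, e2]
    ring
  have e4 : 0 ≤ Real.log (Real.log n) - Real.log (Real.log m) := by
    have := Real.log_le_log hm0 hl
    linarith
  have e5 : Real.log (Real.log n) - Real.log (Real.log m) ≤ (Real.log n - Real.log m) / 2 := by
    rw [← Real.log_div hn0.ne' hm0.ne']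
    have h3 := Real.log_le_sub_one_of_pos (show 0 < Real.log n / Real.log m by positivity)
    have h4 : Real.log n / Real.log m - 1 = (Real.log n - Real.log m) / Real.log m := by
      field_simp
    rw [h4] at h3
    refine le_trans h3 ?_
    exact div_le_div_of_nonneg_left (by linarith) (by norm_num) h2
  have hA : 0 < 2 / bb p := by positivity
  rw [e3]
  constructor
  · apply mul_le_mul_of_nonneg_left _ hA.le
    linarith
  · have h5 : 1 / bb p * (Real.log n - Real.log m) =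
        2 / bb p * ((Real.log n - Real.log m) / 2) := by ring
    rw [h5]
    apply mul_le_mul_of_nonneg_left _ hA.le
    linarith

theorem hUXD : StUXF → StUXD := by
  intro hUXF p x hp hp2 hx
  obtain ⟨hL, hL2⟩ := uxd_bb p hp hp2
  obtain ⟨x', hx1, hx2, hx3⟩ : ∃ x' : ℝ, 1 / 4 < x' ∧ x' ≤ 1 / 2 ∧ x' ≤ x :=
    ⟨min x (1 / 2), lt_min hx (by norm_num), min_le_right _ _, min_le_left _ _⟩
  obtain ⟨ε, hε⟩ : ∃ ε : ℝ, ε = (x' - 1 / 4) / 4 := ⟨_, rfl⟩
  have hε0 : 0 < ε := by rw [hε]; linarith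
  obtain ⟨n0, hn0⟩ := hUXF p ε hp hp2 hε0
  obtain ⟨c, hc⟩ : ∃ c : ℝ, c = 5 * ε * bb p / 2 := ⟨_, rfl⟩
  have hc0 : 0 < c := by rw [hc]; positivity
  obtain ⟨N1, hN1⟩ : ∃ N1 : ℕ, ∀ N : ℕ, N1 ≤ N → 2 ≤ Real.log (N : ℝ) := by
    have h1 : Tendsto (fun n : ℕ => Real.log (n : ℝ)) atTop atTop :=
      Real.tendsto_log_atTop.comp tendsto_natCast_atTop_atTop
    exact eventually_atTop.mp (h1.eventually_ge_atTop 2)
  obtain ⟨N2, hN2⟩ : ∃ N2 : ℕ, ∀ N : ℕ, N2 ≤ N → 2 / (bb p * ε) ≤ (N : ℝ) := by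
    exact eventually_atTop.mp (tendsto_natCast_atTop_atTop.eventually_ge_atTop (2 / (bb p * ε)))
  refine ⟨c, 128, hc0, max (max n0 N1) (max N2 1), ?_⟩
  intro N hN
  have hNn0 : n0 ≤ N := le_trans (le_trans (le_max_left _ _) (le_max_left _ _)) hN
  have hNN1 : N1 ≤ N := le_trans (le_trans (le_max_right _ _) (le_max_left _ _)) hN
  have hNN2 : N2 ≤ N := le_trans (le_trans (le_max_left _ _) (le_max_right _ _)) hN
  have hNN3 : 1 ≤ N := le_trans (le_trans (le_max_right _ _) (le_max_right _ _)) hN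
  have hNpos : (0 : ℝ) < N := by exact_mod_cast hNN3
  have hdf : ∀ m n : ℕ, N ≤ m → m ≤ n →
      a0 p n - a0 p m ≤ 2 / bb p * (Real.log n - Real.log m) ∧
      1 / bb p * (Real.log n - Real.log m) ≤ a0 p n - a0 p m := by
    intro m n hm hmn
    have hm0 : (0 : ℝ) < m := by exact_mod_cast (by omega : 0 < m)
    exact uxd_diff p m n hL hm0 (by exact_mod_cast hmn) (hN1 m (by omega))
  have hmono : ∀ m n : ℕ, N ≤ m → m ≤ n → a0 p m ≤ a0 p n := by
    intro m n hm hmn
    have h1 := (hdf m n hm hmn).2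
    have hm0 : (0 : ℝ) < m := by exact_mod_cast (by omega : 0 < m)
    have h2 : Real.log (m : ℝ) ≤ Real.log n :=
      Real.log_le_log hm0 (by exact_mod_cast hmn)
    have h3 : 0 ≤ 1 / bb p * (Real.log n - Real.log m) :=
      mul_nonneg (by positivity) (by linarith)
    linarith
  have hbig : a0 p N + 2 ≤ a0 p ((128 * N : ℕ) : ℝ) := by
    have h1 := (hdf N (128 * N) le_rfl (by omega)).2
    have h2 : Real.log ((128 * N : ℕ) : ℝ) - Real.log N = 7 * Real.log 2 := by
      push_cast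
      rw [Real.log_mul (by norm_num) hNpos.ne']
      have h3 : Real.log (128 : ℝ) = 7 * Real.log 2 := by
        rw [show (128 : ℝ) = 2 ^ 7 by norm_num, Real.log_pow]
        norm_num
      rw [h3]
      ring
    rw [h2] at h1
    have h4 : 2 ≤ 1 / bb p * (7 * Real.log 2) := by
      have h5 := Real.log_two_gt_d9
      rw [one_div, inv_mul_eq_div, le_div_iff₀ hL]
      nlinarith
    linarith
  -- the integer `a`
  obtain ⟨a, ha⟩ : ∃ a : ℤ, a = ⌈a0 p N⌉ := ⟨_, rfl⟩
  have ha1 : a0 p N ≤ a := by rw [ha]; exact Int.le_ceil _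
  have ha2 : (a : ℝ) < a0 p N + 1 := by rw [ha]; exact Int.ceil_lt_add_one _
  have hex : ∃ n : ℕ, N ≤ n ∧ (a : ℝ) + 1 / 2 ≤ a0 p n := by
    refine ⟨128 * N, by omega, ?_⟩
    linarith
  classical
  obtain ⟨n1, hn1, hn1', hn1''⟩ : ∃ n1 : ℕ, N ≤ n1 ∧ (a : ℝ) + 1 / 2 ≤ a0 p n1 ∧
      ∀ m, N ≤ m → m < n1 → a0 p m < (a : ℝ) + 1 / 2 := by
    refine ⟨Nat.find hex, (Nat.find_spec hex).1, (Nat.find_spec hex).2, ?_⟩
    intro m hm hlt
    have := Nat.find_min hex hlt
    by_contra h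
    push Not at h
    exact this ⟨hm, h⟩
  have hn1N : N < n1 := by
    rcases Nat.lt_or_ge N n1 with h | h
    · exact h
    · have : n1 = N := by omega
      rw [this] at hn1'
      linarith
  have hn1pos : (0 : ℝ) < n1 := by exact_mod_cast (by omega : 0 < n1)
  have hup : a0 p n1 ≤ (a : ℝ) + 1 / 2 + ε := by
    have h1 := hn1'' (n1 - 1) (by omega) (by omega)
    have h2 := (hdf (n1 - 1) n1 (by omega) (by omega)).1
    have hm0 : (0 : ℝ) < ((n1 - 1 : ℕ) : ℝ) := by exact_mod_cast (by omega : 0 < n1 - 1)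
    have h3 : Real.log n1 - Real.log ((n1 - 1 : ℕ) : ℝ) ≤ 1 / N := by
      rw [← Real.log_div hn1pos.ne' hm0.ne']
      refine le_trans (Real.log_le_sub_one_of_pos (by positivity)) ?_
      have h4 : (n1 : ℝ) / ((n1 - 1 : ℕ) : ℝ) - 1 = 1 / ((n1 - 1 : ℕ) : ℝ) := by
        have h5 : (n1 : ℝ) = ((n1 - 1 : ℕ) : ℝ) + 1 := by
          exact_mod_cast (by omega : n1 = n1 - 1 + 1)
        rw [div_sub_one hm0.ne']
        rw [h5]
        ring
      rw [h4]
      apply one_div_le_one_div_of_le hNpos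
      exact_mod_cast (by omega : N ≤ n1 - 1)
    have h6 : 2 / bb p * (Real.log n1 - Real.log ((n1 - 1 : ℕ) : ℝ)) ≤ ε := by
      have h7 := mul_le_mul_of_nonneg_left h3 (show 0 ≤ 2 / bb p by positivity)
      have h8 := hN2 N hNN2
      have h9 : 2 / bb p * (1 / (N : ℝ)) ≤ ε := by
        rw [div_le_iff₀ (by positivity)] at h8
        rw [div_mul_div_comm, mul_one, div_le_iff₀ (by positivity)]
        linarith
      linarith
    linarith
  have hsub : Icc n1 (n1 + ⌊c * n1⌋₊) ⊆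
      (Icc N ⌊(128 : ℝ) * N⌋₊).filter (fun n : ℕ => sn p n ≤ (n : ℝ) ^ x) := by
    intro n hn
    rw [mem_Icc] at hn
    have hnN : N ≤ n := by omega
    have hnpos : (0 : ℝ) < n := by exact_mod_cast (by omega : 0 < n)
    have hn2 : (n : ℝ) ≤ n1 * (1 + c) := by
      have h1 : (n : ℝ) ≤ n1 + (⌊c * n1⌋₊ : ℝ) := by exact_mod_cast hn.2
      have h2 : (⌊c * n1⌋₊ : ℝ) ≤ c * n1 := Nat.floor_le (by positivity)
      linarith
    have h3 := (hdf n1 n (by omega) hn.1).1
    have h4 : Real.log n - Real.log n1 ≤ c := by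
      rw [← Real.log_div hnpos.ne' hn1pos.ne']
      have h5 : (n : ℝ) / n1 ≤ 1 + c := by
        rw [div_le_iff₀ hn1pos]
        linarith
      refine le_trans (Real.log_le_sub_one_of_pos (by positivity)) ?_
      linarith
    have h5 : 2 / bb p * (Real.log n - Real.log n1) ≤ 5 * ε := by
      have h6 := mul_le_mul_of_nonneg_left h4 (show 0 ≤ 2 / bb p by positivity)
      have h7 : 2 / bb p * c = 5 * ε := by
        rw [hc]; field_simp
      linarith
    have h6 : a0 p n ≤ (a : ℝ) + 1 / 2 + 6 * ε := by linarith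
    have h7 : (a : ℝ) + 1 / 2 ≤ a0 p n := le_trans hn1' (hmono n1 n (by omega) hn.1)
    have hε2 : 1 / 2 + 6 * ε < 1 := by rw [hε]; linarith
    have h8 : n ≤ 128 * N := by
      by_contra h
      push Not at h
      have h9 := hmono (128 * N) n (by omega) h.le
      linarith
    have hfl : ⌊a0 p n⌋ = a := by
      rw [Int.floor_eq_iff]
      constructor
      · linarith
      · linarith
    have hfr : Int.fract (a0 p n) = a0 p n - a := by
      unfold Int.fract
      rw [hfl]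
    rw [mem_filter, mem_Icc]
    refine ⟨⟨hnN, ?_⟩, ?_⟩
    · have h9 : ⌊(128 : ℝ) * N⌋₊ = 128 * N := by
        have : (128 : ℝ) * N = ((128 * N : ℕ) : ℝ) := by push_cast; ring
        rw [this, Nat.floor_natCast]
      rw [h9]
      exact h8
    · have h10 := hn0 n (by omega) (by rw [hfr]; linarith)
      refine le_trans h10 ?_
      apply Real.rpow_le_rpow_of_exponent_le
      · exact_mod_cast (by omega : 1 ≤ n)
      · rw [hfr]
        have h11 : 4 * ε = x' - 1 / 4 := by rw [hε]; ring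
        linarith
  have hcard := card_le_card hsub
  rw [Nat.card_Icc] at hcard
  have h1 : n1 + ⌊c * n1⌋₊ + 1 - n1 = ⌊c * n1⌋₊ + 1 := by omega
  rw [h1] at hcard
  have h2 : c * n1 < (⌊c * n1⌋₊ : ℝ) + 1 := Nat.lt_floor_add_one _
  have h3 : c * N ≤ c * n1 := by
    apply mul_le_mul_of_nonneg_left _ hc0.le
    exact_mod_cast hn1
  have h4 : ((⌊c * n1⌋₊ : ℝ) + 1) ≤
      (((Icc N ⌊(128 : ℝ) * N⌋₊).filter (fun n : ℕ => sn p n ≤ (n : ℝ) ^ x)).card : ℝ) := by
    exact_mod_cast hcard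
  linarith

end Pool.Agent.Helper58.UX
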